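import Pool.Agent.R180.Cert

set_option autoImplicit false

/-!
# A certificate (machine generated data)
-/

namespace Pool.Agent.R180.MW.CertN

open Pool.Agent.R180.Cert Pool.Agent.R180.Rup

/-- the tetrahedra -/
def facets : List (List ℕ) :=
  [[0, 1, 2, 3], [0, 1, 2, 9], [0, 2, 3, 9], [0, 1, 3, 11], [1, 2, 3, 11], [0, 1, 4, 9],
   [1, 2, 5, 9], [2, 3, 6, 9], [0, 3, 7, 9], [0, 1, 4, 11], [1, 2, 5, 11], [2, 3, 6, 11],
   [0, 3, 7, 11], [4, 5, 6, 7], [4, 5, 6, 8], [4, 6, 7, 8], [5, 6, 7, 10], [4, 5, 7, 10],
   [0, 5, 6, 8], [1, 6, 7, 8], [2, 4, 7, 8], [3, 4, 5, 8], [0, 5, 6, 10], [1, 6, 7, 10],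
   [2, 4, 7, 10], [3, 4, 5, 10]]

/-- the clauses used -/
def gens : List Gen :=
  [Gen.gp [0, 6, 8] 1 2 4 11 false false false false, Gen.fac 7 5 true, Gen.gp [0, 2, 3] 1 5 6 11
   true true true false, Gen.fac 4 7 true, Gen.fac 5 3 true, Gen.gp [0, 7, 11] 3 4 6 9 true true
   true true, Gen.fac 15 2 false, Gen.fac 13 8 true, Gen.gp [1, 6, 7] 0 2 3 8 false true false
   true, Gen.gp [0, 1, 6] 3 7 9 11 true false true false, Gen.gp [1, 4, 8] 3 5 6 7 true true true
   true, Gen.gp [1, 4, 6] 0 7 9 11 false true false false, Gen.gp [0, 1, 6] 4 7 8 11 true false
   false true, Gen.gp [1, 6, 7] 0 4 8 11 false true true true, Gen.gp [0, 1, 7] 3 6 9 11 false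
   false true true, Gen.fac 18 9 true, Gen.gp [0, 4, 6] 1 7 8 11 true true true true, Gen.fac 13 0
   false, Gen.gp [1, 4, 8] 0 2 6 7 true true true true, Gen.gp [1, 4, 7] 0 2 6 8 true true true
   true, Gen.gp [3, 6, 11] 0 1 2 7 false false true false, Gen.fac 19 11 false, Gen.gp [1, 4, 7] 0
   6 8 9 true true true true, Gen.fac 20 6 true, Gen.gp [0, 1, 8] 2 4 7 11 true true true true,
   Gen.fac 6 3 true, Gen.gp [1, 6, 11] 0 4 5 9 false false false true, Gen.gp [0, 1, 8] 2 6 7 9
   true false false false, Gen.fac 19 9 true, Gen.fac 15 1 true, Gen.gp [2, 6, 9] 1 3 5 8 false
   true false false, Gen.gp [0, 5, 6] 2 8 9 11 true false true false, Gen.fac 23 4 false, Gen.gp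
   [0, 6, 11] 1 2 7 8 false false true false, Gen.fac 15 11 false, Gen.fac 11 4 false, Gen.gp [0,
   1, 3] 2 6 7 9 false false false false, Gen.fac 16 0 true, Gen.fac 15 5 true, Gen.fac 2 5 false,
   Gen.fac 18 2 false, Gen.gp [1, 7, 8] 2 3 4 11 true true true true, Gen.fac 1 4 false, Gen.gp
   [2, 5, 9] 0 1 3 6 true false true false, Gen.fac 16 4 true, Gen.gp [1, 6, 7] 0 4 8 9 true false
   false true, Gen.gp [1, 2, 6] 3 7 9 11 false false true true, Gen.fac 9 7 false, Gen.gp [0, 4,
   8] 1 2 6 9 true true false false, Gen.gp [0, 1, 11] 2 3 6 8 true false true false, Gen.fac 1 5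
   false, Gen.fac 3 2 false, Gen.fac 11 8 false, Gen.gp [0, 4, 8] 6 7 9 11 true true true true,
   Gen.gp [1, 6, 7] 2 8 9 11 true true false true, Gen.gp [0, 6, 7] 1 2 4 8 false true true true,
   Gen.gp [0, 2, 6] 1 7 8 11 false false false false, Gen.gp [6, 7, 9] 0 1 4 8 true true true
   false, Gen.fac 14 11 true, Gen.fac 1 8 false, Gen.fac 3 4 true, Gen.gp [6, 7, 9] 1 4 5 11 true
   true false true, Gen.fac 23 8 false, Gen.fac 15 0 false, Gen.gp [4, 6, 8] 0 1 5 11 true false
   false true, Gen.gp [1, 6, 7] 0 4 9 10 true false false false, Gen.fac 23 9 false, Gen.fac 13 1
   true, Gen.gp [3, 6, 9] 0 1 2 7 true true false false, Gen.fac 5 2 false, Gen.fac 18 4 false,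
   Gen.fac 10 3 true, Gen.fac 18 1 false, Gen.fac 15 9 false, Gen.fac 7 8 true, Gen.gp [1, 6, 9] 0
   2 3 7 false false false false, Gen.fac 0 11 true, Gen.fac 12 2 true, Gen.gp [0, 1, 7] 2 6 8 11
   false true true false, Gen.gp [1, 6, 7] 0 8 9 11 false true false false, Gen.fac 8 11 false,
   Gen.fac 19 9 false, Gen.fac 20 10 false, Gen.gp [1, 7, 8] 2 3 6 11 false true true true, Gen.gp
   [6, 7, 11] 1 4 8 9 true false true true, Gen.gp [1, 6, 8] 0 5 7 9 true true false false,
   Gen.fac 16 4 false, Gen.fac 14 3 true, Gen.fac 18 3 false, Gen.gp [4, 7, 11] 2 3 6 8 false true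
   false false, Gen.gp [4, 7, 11] 0 3 6 8 true true true true, Gen.fac 22 9 true, Gen.gp [0, 1, 7]
   4 6 8 9 true true true false, Gen.gp [0, 4, 9] 1 6 7 10 true true true true, Gen.gp [0, 6, 8] 1
   4 5 11 true true false false, Gen.gp [0, 7, 11] 1 3 4 6 false true false false, Gen.gp [1, 2,
   7] 0 3 8 11 true false false true, Gen.fac 16 0 false, Gen.gp [0, 4, 11] 1 5 6 7 false false
   false true, Gen.gp [1, 8, 9] 0 2 4 7 false true false true, Gen.gp [1, 6, 7] 0 2 8 9 false
   false true false, Gen.fac 3 8 true, Gen.gp [1, 6, 7] 0 2 3 8 true false true true, Gen.gp [1,
   7, 8] 2 4 6 9 false false true false, Gen.gp [0, 6, 9] 1 5 7 8 false false false true, Gen.gp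
   [0, 5, 6] 2 3 8 11 true true false false, Gen.fac 15 1 false, Gen.gp [0, 7, 11] 3 4 6 8 true
   true true false, Gen.fac 13 9 false, Gen.gp [1, 6, 7] 3 8 9 11 false false true true, Gen.gp
   [2, 4, 8] 0 1 6 9 true false true false, Gen.gp [1, 6, 11] 0 3 7 8 true false true false,
   Gen.fac 7 1 true, Gen.fac 14 1 false, Gen.fac 9 8 false, Gen.gp [0, 4, 6] 1 5 7 8 true true
   true true, Gen.gp [1, 6, 7] 0 4 8 9 false false true false, Gen.gp [1, 6, 7] 4 5 9 10 false
   true false true, Gen.fac 22 7 false, Gen.gp [0, 1, 7] 2 3 9 11 true false false true, Gen.gp
   [0, 1, 7] 4 6 9 11 true true false true, Gen.gp [0, 6, 8] 1 5 7 9 true true false true, Gen.fac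
   5 7 true, Gen.gp [0, 6, 10] 4 5 7 9 true false true false, Gen.gp [0, 1, 8] 2 6 7 11 false true
   true false, Gen.gp [0, 7, 9] 1 3 4 6 true false true false, Gen.gp [0, 1, 9] 2 3 6 7 true true
   true false, Gen.fac 12 1 false, Gen.fac 11 1 true, Gen.fac 23 8 true, Gen.fac 15 0 true, Gen.gp
   [1, 6, 7] 0 4 8 11 false false true false, Gen.gp [1, 2, 3] 0 6 7 9 false false false true,
   Gen.fac 3 5 true, Gen.fac 4 0 false, Gen.gp [0, 6, 7] 1 2 3 11 true true true true, Gen.fac 14
   0 false, Gen.gp [0, 1, 7] 3 6 9 11 true false true false, Gen.fac 19 4 false, Gen.gp [1, 7, 8]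
   0 2 4 6 true false true true, Gen.fac 19 3 true, Gen.fac 19 2 false, Gen.gp [1, 6, 11] 0 3 4 7
   true false false false, Gen.fac 9 6 false, Gen.gp [1, 6, 8] 0 4 5 7 true false false false,
   Gen.fac 8 4 false, Gen.gp [1, 6, 7] 0 2 8 11 false false true false, Gen.gp [0, 1, 7] 2 4 8 9
   true true false false, Gen.gp [2, 6, 8] 0 1 5 11 true false true false, Gen.fac 0 7 true,
   Gen.gp [1, 4, 6] 0 7 8 9 false true true false, Gen.fac 2 7 false, Gen.gp [1, 7, 11] 0 3 4 6
   true false true true, Gen.gp [1, 4, 7] 0 6 8 11 false false false true, Gen.gp [0, 3, 6] 1 2 7
   9 true true true false, Gen.gp [1, 2, 6] 5 7 9 11 false true false false, Gen.gp [0, 1, 6] 4 7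
   8 9 false false true false, Gen.fac 19 10 true, Gen.gp [5, 6, 9] 0 1 7 11 true true false
   false, Gen.unit, Gen.gp [1, 6, 8] 3 4 7 11 true false false true, Gen.fac 19 5 false, Gen.fac
   19 0 false, Gen.gp [1, 6, 7] 3 8 9 11 true false true false, Gen.fac 1 7 false, Gen.gp [2, 6,
   11] 1 3 5 8 true false true false, Gen.fac 19 5 true, Gen.fac 15 9 true, Gen.fac 5 10 true,
   Gen.gp [0, 5, 6] 1 9 10 11 true false false true, Gen.gp [1, 2, 7] 5 8 9 11 false true false
   false, Gen.gp [0, 1, 11] 3 6 7 8 false false false true, Gen.fac 13 9 true, Gen.gp [0, 4, 5] 1
   6 9 11 true false true false, Gen.fac 24 8 false, Gen.gp [1, 7, 11] 2 3 6 8 false true false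
   false, Gen.gp [6, 8, 9] 1 2 4 5 false false false true, Gen.fac 14 9 false, Gen.gp [1, 2, 7] 0
   6 9 11 false false true true, Gen.fac 3 6 true, Gen.gp [4, 6, 7] 1 5 9 10 false true false
   false, Gen.fac 20 11 false, Gen.fac 0 5 true, Gen.fac 11 0 false, Gen.fac 1 3 true, Gen.fac 12
   8 true, Gen.fac 16 1 false, Gen.fac 10 0 false, Gen.gp [4, 6, 7] 0 2 5 11 false false true
   false, Gen.fac 22 1 true, Gen.gp [6, 7, 9] 0 1 4 8 true true true true, Gen.gp [0, 1, 6] 4 5 9
   11 true true false true, Gen.fac 20 1 true, Gen.fac 20 1 false, Gen.fac 6 0 false, Gen.fac 19
   11 true, Gen.gp [0, 6, 8] 1 4 5 9 false false true false, Gen.fac 15 2 true, Gen.gp [0, 3, 11]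
   1 2 5 6 true true true false, Gen.fac 8 2 true, Gen.fac 6 7 true, Gen.fac 23 0 true, Gen.gp [0,
   4, 6] 1 7 8 11 true false true false, Gen.fac 19 0 true, Gen.gp [6, 7, 9] 1 4 8 11 false false
   false false, Gen.gp [0, 7, 11] 1 2 3 4 false false true false, Gen.gp [0, 7, 9] 3 4 6 8 false
   false false false, Gen.fac 23 9 true, Gen.fac 8 8 false, Gen.gp [6, 7, 9] 0 1 4 11 true true
   false true, Gen.fac 18 7 false, Gen.gp [1, 6, 7] 0 2 8 11 false true true true, Gen.fac 23 4
   true, Gen.fac 18 4 true, Gen.gp [1, 6, 7] 0 3 8 11 true true false false, Gen.fac 19 3 false,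
   Gen.gp [0, 1, 8] 2 4 7 9 false false false true, Gen.gp [0, 6, 8] 1 5 7 11 true true false
   true, Gen.gp [0, 6, 8] 1 4 5 9 true true false false, Gen.gp [1, 4, 8] 0 2 6 7 false false
   false true, Gen.gp [1, 5, 11] 0 2 4 6 true false true false, Gen.fac 20 0 true, Gen.fac 9 3
   true, Gen.gp [1, 6, 7] 0 3 9 11 false true true false, Gen.gp [0, 1, 4] 6 7 8 9 true false
   false false, Gen.fac 6 6 true, Gen.gp [0, 4, 7] 1 6 8 11 false false true true, Gen.fac 13 0
   true, Gen.fac 22 7 true, Gen.fac 5 5 true, Gen.fac 12 6 true, Gen.gp [1, 2, 6] 0 7 8 9 true
   true false true, Gen.fac 18 1 true, Gen.gp [0, 4, 6] 1 5 8 9 false true false true, Gen.gp [1,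
   7, 9] 0 2 6 8 false false false true, Gen.gp [1, 8, 11] 0 2 6 7 true true true false, Gen.fac 2
   1 true, Gen.gp [4, 6, 7] 0 5 9 10 false false true true, Gen.fac 9 5 false, Gen.fac 21 6 true,
   Gen.fac 15 11 true, Gen.fac 8 1 false, Gen.gp [1, 2, 7] 3 6 8 9 false false false true, Gen.gp
   [1, 7, 11] 0 3 6 8 true true true true, Gen.fac 5 8 true, Gen.fac 14 1 true, Gen.gp [0, 1, 4] 6
   7 8 9 false true false true, Gen.fac 20 6 false, Gen.fac 14 7 false, Gen.fac 18 11 false,
   Gen.fac 14 7 true, Gen.gp [0, 7, 9] 1 3 4 11 true false true false, Gen.fac 19 2 true, Gen.fac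
   2 6 false, Gen.gp [1, 6, 8] 0 2 4 5 false false false false, Gen.fac 18 9 false, Gen.fac 19 4
   true, Gen.gp [1, 3, 6] 0 2 7 9 false false false true, Gen.gp [0, 4, 7] 2 6 9 10 false false
   true false, Gen.gp [1, 6, 7] 0 8 9 11 true true false true, Gen.fac 11 5 false, Gen.gp [0, 1,
   6] 2 3 9 11 true false false true, Gen.gp [0, 1, 7] 2 6 8 9 false true false true, Gen.gp [0,
   1, 6] 4 7 9 11 true true false false, Gen.gp [6, 7, 9] 0 1 4 10 true true false true, Gen.gp
   [0, 6, 7] 1 4 8 11 true false false false, Gen.fac 4 4 true, Gen.fac 13 8 false, Gen.fac 0 6
   true, Gen.gp [0, 4, 6] 1 7 8 11 false true true true, Gen.gp [0, 1, 6] 4 7 9 11 true true false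
   true, Gen.gp [1, 6, 8] 0 4 5 7 false true true false, Gen.fac 13 11 true, Gen.fac 13 1 false,
   Gen.fac 19 10 false, Gen.fac 13 10 false, Gen.fac 3 7 true, Gen.gp [2, 5, 11] 0 1 3 6 false
   true false false, Gen.fac 0 9 true, Gen.fac 1 6 false, Gen.fac 20 0 false, Gen.fac 22 4 false,
   Gen.gp [6, 7, 11] 0 1 3 4 false true false false, Gen.fac 10 6 false, Gen.gp [3, 4, 11] 1 2 6 7
   false false false true, Gen.fac 12 4 true, Gen.fac 5 6 true, Gen.gp [0, 4, 11] 1 5 6 8 false
   false false true, Gen.fac 22 11 true, Gen.fac 10 4 false, Gen.gp [1, 7, 8] 2 4 5 6 true false
   true true, Gen.gp [0, 4, 7] 2 8 9 11 true false true true, Gen.gp [0, 4, 6] 5 7 8 11 true false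
   false false, Gen.fac 21 1 false, Gen.gp [1, 6, 7] 0 3 8 9 true true false false, Gen.fac 8 6
   false, Gen.fac 4 5 true, Gen.fac 7 7 true, Gen.fac 7 0 false, Gen.gp [4, 6, 7] 0 5 9 11 true
   false true false, Gen.gp [0, 1, 8] 4 6 7 9 false false true true, Gen.fac 2 4 false, Gen.gp [0,
   4, 7] 2 6 8 9 true false false false, Gen.gp [6, 7, 9] 0 1 4 5 true true false false, Gen.gp
   [1, 6, 7] 2 4 5 8 true false false false, Gen.fac 14 0 true, Gen.gp [1, 3, 7] 2 6 8 11 false
   true false true, Gen.gp [0, 1, 7] 4 6 8 11 false false false false, Gen.fac 22 9 false, Gen.gp
   [6, 7, 9] 0 1 4 8 true true false false, Gen.gp [1, 6, 7] 0 3 8 11 true false false true,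
   Gen.gp [1, 7, 8] 0 2 4 6 false true false true, Gen.gp [0, 4, 9] 1 2 3 7 true true true true,
   Gen.gp [0, 6, 8] 1 5 7 9 false false true true, Gen.gp [0, 4, 11] 5 7 8 9 false false true
   true, Gen.fac 15 5 false, Gen.fac 13 11 false, Gen.fac 10 7 false, Gen.gp [1, 7, 8] 2 4 6 11
   true true false false, Gen.fac 4 6 true, Gen.fac 13 2 true, Gen.gp [6, 7, 11] 0 2 3 4 true true
   false false, Gen.fac 24 0 true, Gen.fac 11 7 false, Gen.fac 18 7 true, Gen.fac 13 10 true]

/-- the derivation -/
def steps : List (Clause × List ℕ) :=
  [([(4667, true)], [159, 76]), ([(4663, true)], [160, 150]), ([(1048579, true)], [1, 53]),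
   ([(1048580, true)], [2, 137]), ([(4939, false)], [1, 64]), ([(5003, false)], [2, 106]),
   ([(4955, false)], [3, 139]), ([(74619, false)], [3, 10]), ([(4971, true), (6027, true), (4987,
   true), (5771, false), (5755, true)], [2, 179]), ([(92043, true), (75387, false), (79755, true),
   (75659, false), (79483, false)], [1, 184]), ([(4971, false)], [7, 189]), ([(4661, true)], [170,
   193]), ([(13675, true), (9067, true), (9051, false)], [11, 5, 1, 210]), ([(1048585, false)],
   [8, 235]), ([(5243, true)], [0, 61]), ([(5259, true)], [1, 129]), ([(5227, true)], [2, 159]),
   ([(5223, false), (18315, true), (5240, true), (18043, true), (18040, true)], [2, 243]),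
   ([(5211, true)], [4, 256]), ([(4662, false), (5787, false), (4713, false), (4715, false),
   (4969, false)], [8, 280]), ([(5223, true), (5787, true), (5225, true), (5755, false), (5753,
   false)], [3, 283]), ([(74571, false)], [17, 287]), ([(4662, true)], [181, 290]), ([(5223,
   true), (18059, true), (5224, false), (18043, true), (18040, false)], [6, 292]), ([(5223, true),
   (5787, false), (5225, true), (5755, true), (5753, true)], [7, 294]), ([(4987, false)], [22,
   301]), ([(1048588, true)], [0, 153]), ([(9083, false)], [0, 104]), ([(14219, false)], [1,
   213]), ([(13947, true)], [2, 259]), ([(4665, true)], [189, 308]), ([(1048577, false)], [0,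
   215]), ([(1048578, false)], [1, 268]), ([(4681, true)], [1, 75]), ([(4697, true)], [2, 84]),
   ([(4745, true)], [3, 94]), ([(4729, true)], [4, 200]), ([(9049, true)], [4, 76]), ([(9081,
   true)], [5, 189]), ([(9065, true)], [6, 292]), ([(1048581, true)], [6, 109]), ([(1048582,
   true)], [6, 235]), ([(1048584, false)], [3, 241]), ([(4937, true)], [2, 47]), ([(5241, false)],
   [3, 166]), ([(5274, true)], [4, 213]), ([(5209, false)], [5, 275]), ([(5257, false)], [6,
   291]), ([(74585, true)], [6, 73]), ([(75129, false)], [7, 249]), ([(75113, false)], [8, 275]),
   ([(14235, false)], [8, 131]), ([(13433, false)], [9, 197]), ([(14217, true)], [10, 261]),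
   ([(4985, true)], [11, 295]), ([(4713, true)], [23, 334]), ([(5755, true), (214651, false),
   (83579, false), (18043, true), (79483, false)], [26, 338]), ([(214651, true), (78955, true),
   (144507, false), (78971, true), (144491, true)], [35, 341]), ([(13435, true)], [31, 343]),
   ([(5225, false)], [18, 345]), ([(18059, true), (17803, false), (17771, true)], [41, 43, 44,
   347]), ([(13945, false)], [18, 356]), ([(74587, false)], [58, 358]), ([(1048586, false)], [0,
   134]), ([(4699, false)], [0, 251]), ([(75115, true)], [1, 348]), ([(74843, false)], [2, 355]),
   ([(1048583, true)], [27, 365]), ([(144745, true)], [0, 69]), ([(145033, false)], [1, 143]),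
   ([(74601, true)], [2, 182]), ([(145017, false)], [3, 368]), ([(9577, false)], [3, 34, 37, 21,
   23, 115]), ([(5224, true), (6025, false), (5240, true), (5769, true), (5752, false)], [25,
   373]), ([(9033, true)], [41, 375]), ([(74599, false), (79755, true), (74616, false), (79483,
   false), (79480, false)], [67, 381]), ([(5223, true), (6027, false), (5240, false), (5755,
   false), (5752, true)], [61, 383]), ([(9337, false)], [43, 24, 33, 32, 2, 389]), ([(75131,
   true)], [14, 395]), ([(74603, false)], [75, 398]), ([(1048587, false)], [0, 208]), ([(144491,
   false)], [0, 116]), ([(145035, true)], [1, 134]), ([(9067, false)], [2, 266]), ([(144747,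
   false)], [3, 344]), ([(9851, false), (214651, true), (149115, false), (18043, true), (145019,
   false)], [55, 406]), ([(145019, true)], [5, 409]), ([(79483, true)], [0, 76, 3, 57, 7, 107]),
   ([(83576, true), (5753, false), (5223, true), (83577, false)], [226, 116, 291, 133]), ([(83576,
   false), (83579, false), (92059, false), (288667, false), (424091, false)], [195, 345, 329, 110,
   173]), ([(5755, true), (83579, false), (214651, false)], [31, 60, 64, 75, 2, 185, 33]),
   ([(5223, false), (79480, false), (5752, true), (83576, false), (92043, true), (5753, false),
   (83579, true)], [76, 46, 3, 65, 36, 104, 211, 305, 228]), ([(5755, false), (5223, true), (5224,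
   false), (75659, false), (79480, false), (5752, true), (92043, true), (5753, false), (75403,
   true)], [44, 47, 4, 32, 75, 37, 61, 90, 36, 69, 81, 86, 91, 338, 306, 71, 104, 15, 128, 72,
   327, 141]), ([(92043, true), (5753, true), (83579, true), (92059, false)], [62, 38, 56, 37, 53,
   21, 31, 22, 5, 33, 82, 219, 161, 288, 174, 231, 255, 352, 106, 316, 68, 102]), ([(5753, true),
   (83579, true), (92059, false)], [38, 57, 39, 63, 23, 32, 22, 54, 6, 34, 83, 220, 162, 0, 115,
   122, 297, 350, 173, 225, 317, 69, 103]), ([(1048595, false), (5753, false), (83849, false),
   (288666, false)], [35, 47, 50, 123, 252, 261, 298, 351, 224, 124, 127, 410, 345, 362, 208, 231,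
   162, 267, 420, 165, 275, 327, 140, 366, 319, 117]), ([(5753, true), (92059, false), (214651,
   false), (288667, false), (424091, false)], [1, 6, 5, 234, 124, 291, 299, 175]), ([(5755,
   false), (5223, false), (92043, false), (5753, false)], [9, 82, 52, 71, 42, 118, 300, 237, 407,
   217, 234]), ([(92043, false), (5753, false), (214651, false), (288666, false)], [119, 126, 255,
   301, 354, 227, 127, 130, 413, 365, 165, 270, 423, 278, 143, 0, 7, 229]), ([(83851, false),
   (5223, true), (92043, true), (5753, false), (92059, false), (75403, true)], [51, 54, 39, 40,
   69, 84, 88, 73, 11, 91, 28, 68, 76, 97, 62, 20, 49, 294, 237, 205, 296, 346, 291, 261, 240,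
   137, 347, 344, 260, 404, 312, 171, 243, 345, 238, 348, 186, 338, 392, 157, 229, 314, 180, 417,
   6, 194, 75, 163, 193, 90, 210, 342, 259, 89, 182, 153, 310, 140, 23, 195, 109, 231, 277, 389,
   341, 269]), ([(92059, false), (75403, true), (214651, false), (288666, false), (288667, false),
   (424091, false)], [40, 55, 52, 85, 3, 1, 295, 238, 261, 262, 315, 206, 10, 8, 138, 348, 345,
   405, 313, 172, 244, 346, 0, 253]), ([(5753, false), (92059, true), (214651, false), (288666,
   false)], [13, 30, 39, 29, 61, 46, 70, 78, 99, 2, 296, 182, 263, 316, 264, 169, 395, 137]),
   ([(92043, true), (79481, true), (92059, true)], [14, 297, 183, 317, 265]), ([(79481, true),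
   (92059, true)], [15, 0, 124, 131, 243, 212]), ([(92059, true), (214651, false), (288666,
   false)], [64, 32, 42, 33, 73, 49, 67, 48, 2, 230, 172, 0]), ([(5755, true), (4711, false),
   (75659, false), (5223, true), (92043, true)], [46, 75, 90, 17, 79, 94, 300, 243, 211, 143, 353,
   350, 267, 266, 410, 318, 177, 249, 354, 235, 246, 200, 316, 81, 95, 199, 348, 96]), ([(4967,
   false), (4969, false), (79481, true), (75659, false), (5223, true), (92043, true), (75403,
   false), (5753, false)], [40, 26, 23, 21, 58, 61, 44, 66, 35, 46, 89, 76, 50, 83, 95, 100, 105,
   90, 301, 244, 212, 303, 353, 298, 268, 247, 144, 354, 351, 267, 411, 319, 178, 250, 352, 245,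
   355, 316, 146, 321, 271, 260, 363, 208, 0, 85, 118, 29, 241, 86, 323, 155, 139, 130, 230, 124,
   254, 360]), ([(5755, true), (83851, false), (5223, true), (92043, true), (92059, false)], [59,
   62, 47, 48, 77, 92, 96, 81, 19, 99, 36, 76, 84, 105, 70, 28, 57, 302, 245, 213, 304, 354, 299,
   248, 425, 269, 145, 355, 352, 268, 412, 320, 179, 251, 353, 246, 356, 194, 346, 400, 165, 237,
   322, 188, 202, 1, 83, 171, 201, 98, 218, 350, 267, 97, 190, 161, 148, 31, 203, 117, 239, 285,
   397, 349, 277]), ([(214651, false), (288666, false), (288667, false), (424091, false)], [48,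
   63, 60, 93, 20, 53, 77, 85, 106, 37, 46, 36, 68, 3, 11, 7, 9, 303, 246, 249, 269, 270, 323,
   214, 18, 146, 305, 16, 356, 355, 353, 413, 300, 321, 180, 252, 354, 261, 426, 0, 322, 144, 176,
   1]), ([(4967, false), (92043, true), (5753, false), (288667, false), (424091, false)], [54, 78,
   86, 107, 38, 47, 37, 69, 49, 64, 61, 94, 304, 247, 215, 147, 357, 354, 271, 270, 414, 322, 181,
   253, 306, 356, 301, 324, 250, 145, 177, 5, 19, 17, 355, 262, 9, 427, 2]), ([(92043, true),
   (5753, false), (288667, false), (424091, false)], [22, 50, 65, 62, 95, 305, 191, 248, 271, 272,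
   325, 216, 148, 358, 355, 415, 323, 182, 254, 0, 404, 324, 6, 20, 18, 356, 2, 263]), ([(74599,
   true), (4711, false), (79480, true), (75384, true), (5752, false)], [88, 40, 71, 39, 49, 109,
   80, 56, 119, 147, 179, 368]), ([(5753, false), (288666, false), (288667, false), (424091,
   false)], [59, 50, 57, 52, 64, 67, 75, 46, 61, 32, 41, 237, 1, 133, 140, 252, 269, 278, 315,
   364, 368, 16, 241, 141, 144, 118, 185, 427, 135, 362, 379, 305, 225, 248, 179, 284, 437, 215,
   182, 292, 127, 344, 436, 157, 421, 383, 425, 336, 14, 38, 423, 346, 259, 374, 131, 258, 416,
   267, 158, 0]), ([(9320, true), (149129, false), (18057, false), (74856, true), (74889, false),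
   (4680, false), (5224, true)], [65, 161, 223]), ([(288666, false), (288667, false), (424091,
   false)], [27, 55, 63, 44, 43, 45, 58, 78, 103, 88, 66, 69, 97, 54, 112, 77, 59, 32, 91, 99, 26,
   84, 74, 42, 52, 83, 5, 1, 240, 182, 189, 10, 19, 24, 143, 252, 120, 148, 177, 429, 142, 271,
   280, 309, 317, 366, 137, 364, 381, 193, 243, 214, 295, 307, 227, 250, 291, 181, 286, 341, 386,
   434, 439, 209, 337, 123, 256, 266, 146, 184, 294, 128, 89, 94, 56, 129, 346, 233, 385, 264,
   338, 316, 136, 425, 206, 96, 217, 192, 330, 40, 213, 105, 333, 199, 310, 141, 345, 144, 290, 0,
   204, 114, 203, 28, 302, 170, 169]), ([(5753, true), (4711, true), (9867, false), (4712, true),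
   (5240, true), (5752, false), (288667, false), (424091, false)], [78, 60, 84, 44, 53, 43, 75,
   85, 98, 104, 27, 89, 100, 55, 59, 92, 33, 56, 28, 277, 371, 144, 430, 382, 435, 387, 342, 121,
   138, 296, 178, 149, 310, 143, 241, 183, 11, 18, 20, 194, 210, 338, 124, 257, 267, 90, 95, 57,
   97, 205, 204, 29, 303, 171, 170]), ([(5753, false), (26505, true), (1048595, false), (288666,
   true)], [61, 62, 54, 63, 38, 70, 56, 71, 372, 145, 431, 383, 441, 202, 153, 344, 424, 397, 122,
   139, 198, 290, 438, 343, 288, 396, 189, 179, 273, 245, 182, 144, 241, 425, 322, 353, 380, 418,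
   239, 374, 209]), ([(6025, false), (83849, true), (75657, true), (5240, true), (5752, false),
   (288667, false), (424091, false)], [69, 81, 86, 55, 45, 77, 61, 58, 87, 102, 29, 48, 46, 47,
   66, 62, 80, 115, 57, 100, 91, 106, 279, 373, 146, 123, 140, 310, 369, 428, 432, 367, 230, 283,
   253, 187, 349, 388, 441, 132, 294, 180, 312, 145, 2, 333, 43, 216, 336, 202, 430, 313, 144, 0,
   243, 185, 192, 13, 217, 196, 348, 1, 212, 340, 126, 147, 131, 92, 236, 233, 267, 293, 319, 195,
   3, 117, 108]), ([(5753, true), (6025, true), (5240, true), (5752, false)], [62, 81, 63, 87, 73,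
   47, 56, 46, 78, 30, 107, 58, 280, 313, 146, 244, 210, 186, 14, 197, 341, 127, 93]), ([(6025,
   true), (75657, true), (5240, true), (5752, false), (288666, true)], [66, 57, 64, 74, 82, 39,
   48, 53, 68, 281, 375, 148, 125, 142, 312, 371, 430, 434, 386, 186, 192, 314, 285, 259, 147,
   266, 0, 244, 2, 353, 381, 176, 7, 164, 21, 138, 265, 423, 165, 274]), ([(75657, true), (5240,
   true), (5752, false), (288667, false), (424091, false)], [64, 83, 65, 89, 49, 58, 48, 80, 32,
   109, 60, 75, 282, 376, 149, 435, 370, 233, 286, 256, 190, 352, 391, 444, 135, 315, 148, 5, 0,
   46, 2, 433, 3, 246, 188, 16, 199, 343, 129, 95, 236, 142]), ([(5753, true), (83849, false),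
   (5240, true), (5752, false)], [65, 84, 66, 90, 50, 59, 49, 81, 33, 110, 61, 76, 283, 377, 316,
   149, 247, 189, 17, 200, 344, 130, 96, 237, 143]), ([(5240, true), (5752, false), (288667,
   false), (424091, false)], [69, 60, 67, 77, 284, 378, 151, 128, 145, 315, 195, 374, 150, 7, 1,
   225, 0, 247, 5, 179, 167, 144]), ([(5753, false), (5223, true), (1048595, false), (288666,
   true)], [70, 61, 68, 78, 379, 152, 196, 151, 248, 6, 34, 180]), ([(5752, false), (288667,
   false), (424091, false)], [79, 76, 68, 87, 69, 93, 53, 62, 52, 84, 36, 113, 64, 9, 286, 152,
   290, 319, 380, 153, 439, 374, 237, 260, 194, 356, 395, 1, 348, 0, 250, 192, 20, 203, 347, 133,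
   99]), ([(288667, false), (424091, false)], [85, 53, 63, 54, 94, 70, 88, 69, 0, 328, 146, 263,
   14, 251, 193, 21, 30, 35]), ([(5753, true), (5752, true)], [70, 95, 55, 64, 54, 86, 38, 115,
   89, 124, 73, 71, 74, 81, 98, 100, 97, 67, 96, 66, 48, 111, 109, 107, 79, 329, 264, 232, 164,
   374, 371, 287, 431, 339, 198, 270, 381, 323, 373, 347, 133, 143, 256, 207, 147, 252, 194, 22,
   385, 221, 349, 135, 140, 101, 245, 377, 241, 282, 391, 142, 331, 344, 233, 418, 359, 417, 224,
   65, 299, 179, 440]), ([(5752, true), (288667, true)], [39, 101, 96, 104, 125, 112, 74, 72, 82,
   56, 65, 55, 87, 75, 68, 97, 330, 148, 265, 342, 401, 233, 189, 165, 328, 334, 339, 134, 144,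
   235, 443, 0, 252, 426, 222, 341, 264, 163, 247, 378, 195, 192, 132, 23, 336]), ([(5223, true),
   (5753, false), (1048595, false)], [384, 157, 443, 395, 453, 300, 195, 285, 257, 160, 4, 39,
   308]), ([(83577, true), (5753, false), (1048595, false)], [84, 74, 67, 76, 254, 385, 158, 444,
   396, 454, 301, 196, 202, 286, 258, 161, 157, 309, 186, 12]), ([(5753, false), (5752, false)],
   [77, 68, 75, 70, 82, 85, 93, 50, 59, 64, 79, 292, 386, 159, 445, 380, 243, 296, 266, 200, 362,
   401, 454, 145, 397, 197, 136, 153, 323, 203, 382, 325, 270, 158, 255, 1, 32, 354, 441, 0, 439,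
   152, 443, 233, 56, 277, 364, 392, 149, 18, 276, 434, 176, 285]), ([(5752, false)], [100, 69,
   59, 91, 101, 43, 116, 108, 49, 76, 94, 129, 114, 86, 71, 72, 83, 95, 105, 120, 75, 44, 62, 60,
   61, 80, 293, 159, 297, 326, 383, 387, 160, 137, 165, 194, 446, 154, 381, 398, 312, 324, 244,
   267, 308, 358, 403, 451, 201, 146, 363, 402, 0, 257, 199, 206, 27, 231, 36, 210, 40, 226, 354,
   140, 273, 283, 145, 106, 111, 73, 250, 247, 355, 223, 333, 153, 281, 442, 113, 347, 57, 234,
   209, 221, 350, 216, 327, 158, 230, 122, 220, 362, 45, 319, 161, 307, 186, 17, 187, 131]),
   ([(1048595, false)], [0, 335]), ([(5753, true)], [1, 6]), ([(288667, true)], [2, 6]), ([(92043,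
   false)], [2, 156]), ([(92041, false)], [3, 217]), ([(83576, true)], [4, 275]), ([(87672,
   true)], [5, 299]), ([(79480, true)], [6, 354]), ([(92042, false)], [7, 414]), ([(18041, true)],
   [7, 96, 86, 79, 88, 266]), ([(424091, false)], [7, 16]), ([(1048591, true)], [5, 249]),
   ([(1048599, true)], [3, 206]), ([(284280, false)], [1, 183]), ([(18040, true)], [2, 276]),
   ([(288649, true)], [3, 314]), ([(5754, true)], [3, 349]), ([(92058, false)], [4, 356]),
   ([(83578, false)], [5, 362]), ([(1048589, false)], [5, 158]), ([(1048590, true)], [6, 400]),
   ([(17767, false)], [1, 170]), ([(284281, false)], [2, 262]), ([(83303, false)], [3, 428]),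
   ([(284282, false)], [4, 431]), ([(83304, true)], [4, 402]), ([(17768, true)], [5, 463]),
   ([(1048592, false)], [2, 203]), ([(1048594, false)], [1, 373]), ([(22138, false)], [1, 258]),
   ([(87674, false)], [2, 348]), ([(9576, true)], [2, 203]), ([(5480, true)], [3, 236]), ([(13672,
   true)], [4, 253]), ([(22136, true)], [5, 376]), ([(22155, false)], [6, 416]), ([(22153,
   false)], [7, 423]), ([(1048598, true)], [7, 287]), ([(5224, true)], [5, 31, 32, 38, 12, 314]),
   ([(22170, false)], [1, 262]), ([(5482, false)], [2, 361]), ([(22187, true)], [3, 461]),
   ([(9579, true)], [111, 89, 108, 109, 173, 151, 162, 90, 8, 6, 10, 451, 176, 161, 279]),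
   ([(22171, true)], [0, 102, 11, 6, 7, 206]), ([(79481, false)], [105, 114, 104, 136, 36, 44, 39,
   42, 121, 145, 153, 174, 244, 470, 212]), ([(92059, true)], [0, 73]), ([(83577, true)], [0, 35,
   43, 30, 41, 382]), ([(87673, true)], [0, 23, 16, 28, 29, 296]), ([(26505, false)], [1, 38, 43,
   46, 32, 370]), ([(5223, true)], [2, 30, 47, 32, 31, 246]), ([(22137, true)], [3, 40, 48, 2, 27,
   485]), ([(354203, true)], [3, 4, 48, 5, 28, 244]), ([(5769, true)], [3, 52, 15, 17, 19, 305]),
   ([(5206, true)], [3, 38, 26, 14, 31, 300]), ([(83579, true)], [4, 54, 48, 50, 52, 46, 94]),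
   ([(5481, true)], [4, 53, 18, 6, 2, 291]), ([(87707, true)], [4, 5, 0, 12, 8, 346]), ([(83611,
   false)], [2, 129, 7, 172, 10, 200]), ([(5483, true)], [2, 17, 16, 14, 18, 359]), ([(83307,
   false)], [0, 172, 125, 126, 124, 411]), ([(5787, false)], [1, 132, 4, 175, 6, 383]), ([], [0,
   1, 176, 2, 3, 4, 219])]

/-- the clauses -/
def cls : List Clause :=
  [[(4712, true), (18059, false), (5224, true), (9867, true), (5771, true), (9320, false)],
   [(1048583, false), (144745, true)], [(4661, false), (9067, true), (4662, false), (9051, false),
   (4667, false), (9046, true)], [(1048580, false), (74619, false)], [(1048581, false), (4937,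
   true)], [(13435, false), (26523, true), (13947, false), (18331, false), (14235, true), (18043,
   false)], [(1048591, true), (149112, false)], [(1048589, false), (284280, true)], [(4711,
   false), (79480, true), (4967, true), (75384, true), (5752, false), (74599, true)], [(4967,
   true), (5787, true), (4969, false), (5755, true), (4971, true), (5753, true)], [(78936, true),
   (83576, false), (78952, true), (83320, true), (78968, true), (83304, false)], [(5223, false),
   (83611, false), (5225, true), (83579, false), (5227, false), (83577, false)], [(5223, true),
   (5771, false), (5224, false), (5755, false), (5227, false), (5752, true)], [(5223, false),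
   (92043, true), (5752, true), (83579, true), (5755, true), (83576, false)], [(4967, true),
   (6043, true), (4985, false), (5755, true), (4987, true), (5753, true)], [(1048594, false),
   (22153, true)], [(5223, false), (18059, false), (5224, false), (18043, true), (5227, false),
   (18040, false)], [(1048589, true), (17767, false)], [(4680, true), (83576, false), (5224,
   false), (74872, false), (5240, false), (74856, true)], [(4679, true), (83576, true), (5223,
   false), (74872, true), (5240, true), (74855, true)], [(4971, true), (145019, false), (9067,
   true), (79483, true), (13947, false), (74603, true)], [(1048595, true), (92043, false)],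
   [(5223, false), (83849, false), (5240, true), (83577, false), (5241, true), (83576, true)],
   [(1048596, false), (149112, true)], [(4680, false), (6027, true), (4728, false), (5259, false),
   (4747, true), (5240, false)], [(1048582, false), (74585, true)], [(5227, false), (87707,
   false), (5483, false), (83611, true), (5787, true), (83307, true)], [(4712, false), (6025,
   false), (4728, true), (5769, false), (4745, false), (5752, false)], [(1048595, false), (92041,
   true)], [(1048591, false), (83576, true)], [(74601, false), (153225, true), (75113, true),
   (145033, true), (75401, true), (144745, false)], [(9576, false), (22171, true), (9577, true),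
   (22155, true), (9579, false), (22153, true)], [(1048599, true), (83578, true)], [(4715, true),
   (26507, false), (5755, false), (9867, false), (5771, true), (9851, false)], [(1048591, true),
   (288651, false)], [(1048587, true), (144491, false)], [(4662, false), (4985, false), (4663,
   false), (4969, true), (4665, false), (4967, false)], [(1048592, false), (22138, true)],
   [(1048591, false), (284280, false)], [(1048578, true), (9049, true)], [(1048594, true), (9576,
   true)], [(74616, false), (83851, false), (74872, false), (79755, true), (75659, false), (78968,
   false)], [(1048577, true), (4681, true)], [(4697, false), (144745, false), (9049, false),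
   (75113, true), (9577, false), (74585, false)], [(1048592, false), (284282, true)], [(5223,
   true), (92041, false), (5752, false), (83577, false), (5753, false), (83576, true)], [(74599,
   false), (75419, true), (74601, false), (75387, false), (74603, true), (75385, false)],
   [(1048585, true), (5243, true)], [(4680, false), (18057, false), (5224, true), (9353, false),
   (5257, true), (9320, true)], [(4667, false), (5771, true), (4715, true), (5003, true), (4747,
   false), (4971, true)], [(1048577, true), (4697, true)], [(1048579, true), (4667, false)],
   [(1048587, true), (145035, true)], [(18040, false), (18587, false), (18057, true), (18315,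
   false), (18059, true), (18313, true)], [(75384, false), (92059, false), (75385, false), (92043,
   true), (75387, true), (92041, true)], [(4711, true), (18040, true), (5223, false), (9848,
   true), (5752, false), (9319, false)], [(4711, true), (9867, false), (4712, true), (9851, true),
   (4715, true), (9848, false)], [(5753, false), (288649, true), (18041, false), (92041, false),
   (26505, false), (83577, true)], [(1048590, false), (284299, true)], [(1048577, true), (4745,
   true)], [(1048579, false), (4939, false)], [(83577, false), (354203, true), (87673, false),
   (288667, false), (92059, false), (284281, true)], [(1048599, true), (92042, true)], [(1048591,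
   true), (18040, false)], [(5224, false), (284299, false), (17768, false), (83595, true), (18059,
   false), (83304, false)], [(5223, true), (92058, true), (5753, false), (83578, true), (5754,
   false), (83577, false)], [(1048599, true), (92058, true)], [(1048589, false), (83303, true)],
   [(4969, false), (145017, true), (9065, false), (79481, false), (13945, true), (74601, false)],
   [(1048581, true), (4681, false)], [(1048594, true), (17768, true)], [(1048586, false), (74587,
   true)], [(1048594, true), (5480, true)], [(1048591, true), (288649, false)], [(1048583, false),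
   (145033, false)], [(4713, false), (79481, true), (4969, false), (75385, false), (5753, true),
   (74601, false)], [(1048576, false), (4667, true)], [(1048588, false), (9083, false)], [(4711,
   true), (6027, false), (4728, true), (5755, true), (4731, true), (5752, false)], [(5752, false),
   (92059, false), (5753, true), (92043, false), (5755, false), (92041, false)], [(1048584, true),
   (14235, false)], [(1048595, true), (92041, false)], [(1048596, true), (149386, false)],
   [(74616, true), (92043, true), (75384, false), (79755, true), (75659, false), (79480, false)],
   [(83579, false), (424091, false), (92043, true), (288667, false), (92059, false), (288651,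
   false)], [(5480, true), (92041, false), (5752, false), (87689, false), (5769, false), (87672,
   true)], [(1048592, true), (284282, false)], [(1048590, false), (214376, true)], [(1048594,
   true), (13672, true)], [(144507, true), (288651, true), (149115, true), (214923, false),
   (149387, true), (214651, true)], [(13435, false), (288651, true), (18043, true), (214923,
   true), (18315, false), (214651, true)], [(1048598, false), (22170, false)], [(5223, false),
   (6025, true), (5240, true), (5753, true), (5241, true), (5752, false)], [(5225, true), (18330,
   true), (5241, true), (18074, false), (5274, false), (18041, false)], [(5224, false), (22155,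
   true), (5480, false), (18059, false), (5771, true), (17768, false)], [(4987, true), (18043,
   false), (5243, false), (13947, false), (5755, true), (13435, false)], [(4663, false), (75659,
   false), (4728, false), (74619, true), (4731, false), (74616, false)], [(1048592, true), (22138,
   false)], [(5211, false), (18043, true), (5227, false), (17787, false), (5243, false), (17771,
   true)], [(4745, false), (83849, true), (5257, true), (75657, true), (6025, false), (74889,
   true)], [(4711, false), (92041, false), (5752, false), (75385, true), (5753, true), (75384,
   true)], [(1048579, false), (5003, false)], [(4711, true), (79480, false), (4967, false),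
   (75384, false), (5752, true), (74599, false)], [(74872, true), (92041, false), (75384, true),
   (83849, true), (75657, false), (83576, true)], [(5481, true), (26505, true), (5753, false),
   (22153, true), (5769, false), (22137, false)], [(9046, false), (22155, true), (9576, false),
   (13675, false), (9579, true), (13672, false)], [(1048591, true), (83576, false)], [(13435,
   false), (26507, false), (13947, false), (18315, true), (14219, true), (18043, true)],
   [(1048589, true), (284281, false)], [(79480, true), (92059, true), (79481, true), (92043,
   false), (79483, false), (92041, false)], [(4680, false), (149129, false), (9320, true), (74889,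
   false), (9353, true), (74856, true)], [(4971, true), (92043, true), (5755, true), (79499,
   false), (5771, false), (79483, false)], [(1048583, false), (74601, true)], [(1048590, true),
   (83304, false)], [(1048585, true), (5259, true)], [(5206, true), (18040, false), (5223, false),
   (17768, false), (5224, false), (17767, true)], [(5223, false), (92041, false), (5752, false),
   (83577, true), (5753, true), (83576, true)], [(83303, true), (92058, true), (83577, false),
   (87674, true), (83578, true), (87673, true)], [(1048598, true), (22138, true)], [(4663, false),
   (6043, false), (4729, false), (4987, true), (4731, false), (4985, false)], [(5223, false),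
   (6043, false), (5241, true), (5755, false), (5243, false), (5753, false)], [(5480, false),
   (26505, true), (5752, true), (22153, true), (5769, true), (22136, false)], [(1048581, false),
   (5241, false)], [(17770, false), (26522, true), (18042, false), (22170, false), (18074, true),
   (22138, false)], [(4712, true), (6027, true), (4728, false), (5771, true), (4747, true), (5752,
   true)], [(4985, false), (18041, true), (5241, true), (13945, true), (5753, false), (13433,
   true)], [(4665, false), (5753, true), (4713, false), (4985, false), (4729, false), (4969,
   true)], [(1048588, true), (4987, true)], [(1048587, false), (74603, true)], [(1048599, false),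
   (92042, false)], [(1048591, false), (18040, true)], [(5223, false), (92043, false), (5752,
   false), (83579, true), (5755, true), (83576, true)], [(4662, false), (74617, true), (4663,
   false), (74601, false), (4665, false), (74599, true)], [(1048579, false), (4955, false)],
   [(1048580, true), (4667, false)], [(4711, false), (13947, false), (4967, false), (9851, true),
   (5755, false), (9063, false)], [(1048590, true), (17768, false)], [(4967, false), (6043, true),
   (4985, false), (5755, false), (4987, true), (5753, false)], [(1048595, true), (83576, true)],
   [(4728, true), (83576, false), (5240, false), (75384, false), (5752, true), (74872, false)],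
   [(1048595, false), (79480, false)], [(1048595, true), (75384, true)], [(4971, true), (83579,
   false), (5227, false), (79483, false), (5755, true), (78955, false)], [(1048585, true), (5227,
   true)], [(5224, true), (87672, false), (5480, false), (83576, false), (5752, true), (83304,
   false)], [(1048584, true), (13433, false)], [(4711, false), (92043, false), (5752, false),
   (75387, true), (5755, true), (75384, true)], [(4679, false), (6025, true), (4728, true), (5241,
   true), (4729, false), (5240, true)], [(4712, false), (153227, true), (9576, false), (75403,
   false), (9867, true), (75112, false)], [(1048576, false), (4663, true)], [(5223, false),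
   (83593, false), (5224, true), (83577, false), (5225, true), (83576, true)], [(1048578, true),
   (9081, true)], [(4987, true), (83579, false), (5243, false), (79483, false), (5755, true),
   (78971, false)], [(5223, true), (83851, true), (5240, false), (83579, true), (5243, false),
   (83576, false)], [(4662, false), (13945, true), (4967, false), (9065, false), (4969, false),
   (9063, true)], [(75111, false), (75419, false), (75113, true), (75387, false), (75115, false),
   (75385, false)], [(5223, false), (5769, false), (5224, false), (5753, true), (5225, true),
   (5752, true)], [(1048595, false), (92042, true)], [(5481, false), (354203, false), (22137,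
   false), (87707, true), (22171, false), (87673, false)], [(1048576, true)], [(78952, false),
   (92043, true), (79480, false), (83595, false), (79499, true), (83576, false)], [(1048595,
   true), (87672, true)], [(1048595, true), (5752, false)], [(79480, false), (92059, true),
   (79481, true), (92043, true), (79483, false), (92041, true)], [(1048577, true), (4729, true)],
   [(74603, true), (153227, false), (75115, false), (145035, false), (75403, false), (144747,
   true)], [(1048595, false), (87672, false)], [(1048591, false), (288649, true)], [(1048581,
   false), (5274, true)], [(5481, false), (22187, false), (5482, true), (22171, false), (5483,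
   true), (22170, true)], [(75128, false), (75675, false), (75129, true), (75659, false), (75131,
   false), (75657, false)], [(4971, true), (6027, true), (4987, true), (5771, false), (5003,
   true), (5755, true)], [(1048589, false), (284281, true)], [(5206, false), (17819, true), (5209,
   true), (17771, true), (5211, false), (17769, true)], [(1048600, true), (149386, true)],
   [(74619, true), (92043, true), (75387, false), (79755, true), (75659, false), (79483, false)],
   [(75401, true), (284297, true), (83593, true), (153225, false), (87689, true), (149129, true)],
   [(1048590, true), (284297, false)], [(4711, true), (75675, true), (4729, false), (75387, true),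
   (4731, true), (75385, true)], [(1048579, false), (4971, false)], [(83303, false), (288666,
   false), (83577, true), (284282, false), (83578, false), (284281, false)], [(1048596, true),
   (149387, false)], [(1048576, false), (4661, true)], [(1048587, true), (9067, false)],
   [(1048577, false), (4665, false)], [(1048588, false), (14219, false)], [(1048592, true),
   (87674, false)], [(1048586, true), (4699, false)], [(9319, true), (284283, false), (17767,
   false), (149115, false), (18043, true), (148839, false)], [(1048598, false), (5482, false)],
   [(5753, false), (288649, false), (18041, false), (92041, true), (26505, false), (83577,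
   false)], [(5206, false), (5787, false), (5225, true), (5483, false), (5227, false), (5481,
   false)], [(1048596, false), (74872, true)], [(1048596, true), (74872, false)], [(1048582,
   true), (4697, false)], [(1048595, false), (92043, true)], [(5224, true), (22153, false), (5480,
   true), (18057, true), (5769, false), (17768, true)], [(1048591, false), (149112, true)],
   [(4667, false), (13675, true), (4955, true), (9067, true), (4971, true), (9051, false)],
   [(1048584, false), (9081, false)], [(1048582, false), (75129, false)], [(1048599, false),
   (5754, true)], [(5223, false), (18059, true), (5224, true), (18043, true), (5227, false),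
   (18040, true)], [(1048595, false), (5752, true)], [(83577, true), (424091, true), (92041,
   true), (288667, false), (92059, false), (288649, false)], [(4731, true), (13435, false), (4987,
   true), (9339, true), (5243, false), (9083, true)], [(13433, true), (26505, true), (13945,
   true), (18313, false), (14217, false), (18041, false)], [(1048599, false), (92058, false)],
   [(1048584, true), (14217, true)], [(5753, false), (288667, true), (18041, false), (92059,
   false), (26523, false), (83577, true)], [(1048594, true), (22136, true)], [(4711, false),
   (92043, true), (5752, true), (75387, true), (5755, true), (75384, false)], [(1048599, false),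
   (83578, false)], [(1048594, false), (17768, false)], [(4967, true), (92043, true), (5752,
   true), (79483, false), (5755, false), (79480, false)], [(1048595, true), (79480, true)],
   [(4680, true), (6025, false), (4728, true), (5257, true), (4745, false), (5240, true)], [(5480,
   false), (26507, true), (5752, true), (22155, true), (5771, true), (22136, false)], [(5224,
   false), (22153, true), (5480, false), (18057, false), (5769, true), (17768, false)], [(4680,
   false), (83576, true), (5224, true), (74872, true), (5240, true), (74856, false)], [(4699,
   true), (83307, false), (5211, false), (75115, false), (5483, false), (74843, true)], [(1048596,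
   false), (9336, true)], [(1048585, false), (4939, true)], [(4967, false), (92059, false), (5753,
   true), (79483, false), (5755, true), (79481, true)], [(5223, false), (5257, true), (5224,
   true), (5241, true), (5225, true), (5240, false)], [(1048582, false), (75113, false)], [(5223,
   false), (18315, true), (5240, true), (18043, true), (5243, false), (18040, true)], [(1048589,
   false), (17767, true)], [(1048598, false), (22138, false)], [(1048581, false), (5209, false)],
   [(1048588, false), (13947, true)], [(4711, true), (75401, false), (4712, true), (75385, true),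
   (4713, false), (75384, true)], [(1048594, false), (5480, false)], [(5206, false), (18057,
   true), (5224, false), (17769, false), (5225, true), (17768, false)], [(4729, false), (92041,
   false), (5753, false), (75657, true), (6025, true), (75385, true)], [(4747, true), (92043,
   true), (5771, true), (75659, false), (6027, true), (75403, true)], [(1048578, false), (4665,
   false)], [(17767, false), (288666, true), (18041, false), (284282, false), (18042, true),
   (284281, false)], [(1048585, true), (5211, true)], [(1048597, false), (214376, false)],
   [(1048591, false), (288651, true)], [(1048584, true), (4985, true)], [(74599, true), (75657,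
   true), (74616, false), (75385, true), (74617, false), (75384, false)], [(4987, true), (92043,
   true), (5755, true), (79755, false), (6027, false), (79483, false)], [(1048581, false), (5257,
   false)], [(1048590, false), (83304, true)], [(5223, true), (5257, true), (5224, false), (5241,
   true), (5225, true), (5240, true)], [(1048596, true), (149112, false)], [(1048590, true),
   (284280, true)], [(1048594, true), (22155, false)], [(1048590, false), (284280, false)],
   [(4985, false), (18331, true), (5241, true), (14235, true), (6043, false), (13433, true)],
   [(1048595, false), (75384, false)], [(1048578, true), (9065, true)], [(4712, false), (83304,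
   false), (5224, false), (75112, true), (5480, false), (74856, false)], [(1048594, true), (22153,
   false)], [(1048595, false), (83576, false)], [(4662, false), (79481, true), (4967, false),
   (74601, false), (4969, false), (74599, true)], [(9319, false), (18330, false), (9337, true),
   (18042, false), (9338, false), (18041, false)], [(5752, true), (92059, false), (5753, true),
   (92043, true), (5755, false), (92041, true)], [(1048587, true), (144747, false)], [(4662,
   false), (5787, false), (4713, false), (4971, true), (4715, false), (4969, false)], [(4711,
   true), (6025, true), (4728, true), (5753, false), (4729, false), (5752, false)], [(5223, true),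
   (5787, true), (5225, true), (5755, false), (5227, false), (5753, false)], [(5753, false),
   (288666, true), (18041, false), (92058, false), (26522, false), (83577, true)], [(5223, false),
   (26507, true), (5752, true), (18043, true), (5755, true), (18040, false)], [(1048580, false),
   (74571, false)], [(1048589, true), (284280, false)], [(1048576, false), (4662, true)], [(5223,
   true), (18059, true), (5224, false), (18043, true), (5227, false), (18040, false)], [(5223,
   true), (5787, false), (5225, true), (5755, true), (5227, false), (5753, true)], [(5224, false),
   (87672, true), (5480, true), (83576, true), (5752, false), (83304, true)], [(1048589, false),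
   (284283, true)], [(1048589, true), (83303, false)], [(1048595, true), (92042, false)],
   [(1048589, true), (284282, false)], [(1048579, false), (4987, false)], [(4699, true), (144747,
   true), (9051, true), (75115, false), (9579, true), (74587, true)], [(1048576, false), (4665,
   true)], [(1048577, true), (4713, true)], [(1048596, true), (9336, false)], [(1048598, true),
   (17770, true)], [(5755, true), (214651, false), (13947, false), (83579, false), (18043, true),
   (79483, false)], [(1048586, true), (75115, true)], [(74571, true), (214651, true), (78955,
   true), (144507, false), (78971, true), (144491, true)], [(1048588, false), (13435, true)],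
   [(1048581, false), (5225, false)], [(5211, false), (18059, true), (5227, false), (17803,
   false), (5259, false), (17771, true)], [(1048598, false), (22187, true)], [(1048586, true),
   (74843, false)], [(74872, false), (87672, false), (75128, true), (83576, false), (75384,
   false), (83320, false)], [(9336, false), (18331, false), (9337, true), (18315, false), (9339,
   false), (18313, false)], [(17767, true), (18059, true), (17768, false), (18043, true), (17771,
   false), (18040, false)], [(1048597, true), (78936, false)], [(4967, true), (92041, true),
   (5752, true), (79481, false), (5753, false), (79480, false)], [(1048584, true), (13945,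
   false)], [(1048580, false), (74587, false)], [(1048583, false), (145017, false)], [(1048583,
   true), (9065, false)], [(17767, true), (288667, true), (18041, false), (284283, true), (18043,
   true), (284281, true)], [(5224, true), (6025, false), (5240, true), (5769, true), (5257, true),
   (5752, false)], [(1048578, true), (9033, true)], [(9319, true), (18313, true), (9336, true),
   (18041, false), (9337, true), (18040, true)], [(5753, false), (284281, true), (18041, false),
   (87673, false), (22137, true), (83577, false)], [(74855, false), (87672, true), (75111, true),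
   (83576, true), (75384, true), (83303, false)], [(1048590, false), (17768, true)], [(74599,
   false), (79755, true), (74616, false), (79483, false), (74619, true), (79480, false)], [(5223,
   true), (6027, false), (5240, false), (5755, false), (5243, false), (5752, true)], [(1048598,
   true), (22170, true)], [(5753, false), (288649, true), (18041, false), (92041, false), (26505,
   true), (83577, false)], [(4967, true), (92043, false), (5752, false), (79483, false), (5755,
   false), (79480, true)], [(4728, false), (83576, true), (5240, true), (75384, true), (5752,
   false), (74872, true)], [(4681, false), (13433, true), (4937, false), (9337, false), (5241,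
   true), (9033, false)], [(5480, true), (26505, false), (5752, false), (22153, false), (5769,
   false), (22136, true)], [(17787, true), (18587, true), (17803, true), (18331, false), (17819,
   false), (18315, false)], [(1048591, true), (284280, true)], [(1048589, true), (284283, false)],
   [(1048586, true), (75131, true)], [(74872, false), (92043, true), (75384, false), (83851,
   false), (75659, true), (83576, false)], [(1048580, false), (74603, false)], [(1048589, false),
   (148839, true)], [(9851, false), (214651, true), (13947, false), (149115, false), (18043,
   true), (145019, false)], [(1048600, false), (9338, true)], [(1048587, true), (145019, true)],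
   [(1048594, false), (22136, false)], [(1048589, false), (284282, true)]]

lemma gens_ok : gens.all (genOk 12 5 facets) = true := by decide +kernel

lemma cls_ok : gens.map (toClause 5 facets) = cls := by decide +kernel

lemma steps_ok : refute cls steps = true := by decide +kernel

end Pool.Agent.R180.MW.CertN
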