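import Pool.Agent.R180.Cert

set_option autoImplicit false

/-!
# A certificate (machine generated data)
-/

namespace Pool.Agent.R180.MW.CertR

open Pool.Agent.R180.Cert Pool.Agent.R180.Rup

/-- the tetrahedra -/
def facets : List (List ℕ) :=
  [[0, 1, 2, 3], [0, 1, 2, 9], [0, 2, 3, 9], [0, 1, 3, 11], [1, 2, 3, 11], [0, 1, 4, 9],
   [1, 2, 5, 9], [2, 3, 6, 9], [0, 3, 7, 9], [0, 1, 4, 11], [1, 2, 5, 11], [2, 3, 6, 11],
   [0, 3, 7, 11], [4, 5, 6, 7], [4, 5, 6, 8], [4, 6, 7, 8], [5, 6, 7, 10], [4, 5, 7, 10],
   [0, 5, 6, 8], [1, 6, 7, 8], [2, 4, 7, 8], [3, 4, 8, 9], [0, 5, 6, 10], [1, 6, 7, 10],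
   [2, 4, 7, 10], [3, 4, 9, 10]]

/-- the clauses used -/
def gens : List Gen :=
  [Gen.gp [2, 3, 7] 0 4 9 11 false false true true, Gen.fac 17 1 false, Gen.fac 16 4 true, Gen.fac
   1 4 false, Gen.fac 11 10 false, Gen.fac 22 7 false, Gen.gp [2, 4, 7] 0 3 8 11 true false false
   true, Gen.fac 20 6 true, Gen.fac 22 2 true, Gen.fac 20 11 false, Gen.fac 8 2 true, Gen.fac 16 9
   false, Gen.fac 25 6 false, Gen.fac 18 10 true, Gen.gp [3, 6, 10] 0 5 7 9 true false true true,
   Gen.gp [5, 6, 9] 0 2 3 10 false true true true, Gen.fac 7 10 true, Gen.fac 23 9 true, Gen.fac
   13 9 true, Gen.gp [2, 7, 9] 0 1 3 4 true false true false, Gen.fac 20 0 false, Gen.fac 17 9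
   true, Gen.gp [2, 7, 9] 1 3 6 10 false true false true, Gen.gp [0, 4, 11] 1 2 3 7 false false
   false true, Gen.fac 25 2 false, Gen.fac 16 0 false, Gen.gp [2, 4, 7] 3 6 8 9 true false false
   true, Gen.fac 7 4 true, Gen.gp [1, 7, 10] 2 4 5 6 false true false true, Gen.fac 17 2 true,
   Gen.fac 2 7 false, Gen.gp [0, 4, 9] 1 3 6 7 true true true false, Gen.fac 20 3 false, Gen.fac
   12 10 true, Gen.fac 23 5 true, Gen.fac 8 6 false, Gen.gp [3, 7, 9] 0 2 4 10 true true true
   false, Gen.fac 17 6 true, Gen.fac 25 7 true, Gen.fac 16 3 false, Gen.fac 24 9 false, Gen.fac 17
   9 false, Gen.fac 6 0 false, Gen.gp [3, 9, 10] 0 2 4 7 false false true false, Gen.fac 24 0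
   false, Gen.fac 0 5 true, Gen.gp [2, 3, 7] 4 6 9 11 true true true true, Gen.fac 11 0 false,
   Gen.gp [4, 6, 7] 2 5 9 10 true false true false, Gen.fac 1 3 true, Gen.fac 13 3 false, Gen.fac
   6 10 true, Gen.fac 13 10 false, Gen.gp [3, 7, 9] 0 1 2 10 true true true true, Gen.gp [7, 9,
   10] 1 4 6 11 true false false false, Gen.fac 1 5 false, Gen.gp [3, 9, 10] 0 2 4 7 false true
   true true, Gen.gp [2, 5, 9] 1 4 7 10 false false false false, Gen.gp [4, 7, 9] 1 5 6 10 false
   true true false, Gen.fac 24 3 false, Gen.fac 16 11 false, Gen.fac 9 2 false, Gen.gp [2, 4, 7] 0
   3 9 10 false true false true, Gen.gp [2, 3, 9] 0 7 10 11 true true true true, Gen.gp [3, 7, 9]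
   0 2 10 11 true true true true, Gen.fac 23 3 false, Gen.fac 22 9 true, Gen.fac 2 4 false,
   Gen.fac 11 1 true, Gen.fac 12 6 true, Gen.gp [4, 9, 10] 0 1 3 7 true false false true, Gen.fac
   1 7 false, Gen.fac 24 5 true, Gen.gp [0, 5, 6] 2 3 8 9 true true false false, Gen.fac 24 1
   false, Gen.gp [0, 2, 5] 1 3 6 9 false true true true, Gen.gp [3, 9, 10] 2 4 6 7 true false true
   false, Gen.gp [2, 5, 6] 0 7 9 10 false true true true, Gen.fac 16 4 false, Gen.fac 25 0 true,
   Gen.fac 25 7 false, Gen.gp [2, 7, 9] 0 1 4 5 true true false false, Gen.fac 7 5 true, Gen.gp
   [7, 10, 11] 3 4 6 9 true true true false, Gen.gp [3, 6, 7] 4 9 10 11 false false false false,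
   Gen.fac 4 6 true, Gen.gp [3, 7, 11] 0 2 6 10 false false false true, Gen.fac 0 11 true, Gen.gp
   [4, 7, 9] 1 2 5 10 false false false true, Gen.gp [3, 6, 11] 0 1 2 7 false false true false,
   Gen.fac 9 7 false, Gen.fac 12 1 false, Gen.fac 20 0 true, Gen.gp [5, 7, 9] 2 4 6 10 false false
   false true, Gen.fac 7 7 true, Gen.fac 5 7 true, Gen.fac 2 10 false, Gen.fac 20 11 true, Gen.gp
   [2, 3, 7] 0 1 9 11 true false true true, Gen.fac 16 1 true, Gen.fac 6 6 true, Gen.fac 6 7 true,
   Gen.fac 24 8 false, Gen.fac 8 11 false, Gen.fac 11 4 false, Gen.gp [4, 7, 9] 0 2 5 6 false
   false false false, Gen.gp [2, 4, 7] 0 3 9 10 false true true false, Gen.fac 6 4 true, Gen.fac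
   16 1 false, Gen.gp [2, 5, 9] 0 1 3 6 true false true false, Gen.fac 6 3 true, Gen.fac 24 6
   false, Gen.fac 23 5 false, Gen.fac 23 4 true, Gen.gp [6, 7, 10] 3 5 9 11 false true false
   false, Gen.gp [2, 7, 9] 3 4 5 6 false true false true, Gen.fac 13 9 false, Gen.fac 25 2 true,
   Gen.fac 8 10 false, Gen.gp [2, 7, 10] 1 4 6 9 true true false true, Gen.gp [3, 6, 9] 0 2 5 10
   true true false true, Gen.fac 8 1 false, Gen.fac 5 3 true, Gen.fac 5 10 true, Gen.gp [2, 5, 6]
   0 1 7 9 false true true false, Gen.gp [1, 4, 9] 0 2 5 7 false false false true, Gen.gp [2, 3,
   10] 4 7 9 11 false true true false, Gen.fac 25 0 false, Gen.fac 20 10 false, Gen.fac 8 4 false,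
   Gen.fac 9 3 true, Gen.gp [2, 3, 11] 4 6 7 10 false false true true, Gen.fac 18 3 false, Gen.fac
   7 0 false, Gen.fac 2 5 false, Gen.fac 2 6 false, Gen.gp [2, 7, 10] 3 4 6 9 true false true
   false, Gen.gp [3, 9, 10] 2 4 6 7 false false true true, Gen.fac 5 6 true, Gen.unit, Gen.gp [2,
   3, 11] 0 1 4 7 true true false true, Gen.fac 24 0 true, Gen.fac 5 2 false, Gen.gp [3, 7, 9] 0 1
   2 6 true true true true, Gen.fac 17 6 false, Gen.gp [3, 7, 10] 0 6 9 11 false false true false,
   Gen.fac 17 2 false, Gen.fac 25 5 false, Gen.fac 3 6 true, Gen.fac 4 7 true, Gen.fac 18 2 false,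
   Gen.fac 22 3 true, Gen.gp [2, 4, 7] 0 3 8 11 true true false false, Gen.fac 25 6 true, Gen.gp
   [3, 6, 9] 0 2 7 10 true false true false, Gen.fac 20 3 true, Gen.fac 16 2 false, Gen.fac 23 2
   true, Gen.gp [2, 6, 9] 3 5 7 10 true true true true, Gen.gp [3, 7, 11] 0 2 4 10 false false
   false false, Gen.gp [0, 4, 9] 1 2 3 7 true true true true, Gen.gp [4, 7, 9] 0 1 5 10 false true
   false true, Gen.fac 0 9 true, Gen.gp [1, 2, 7] 5 6 9 10 false true true false, Gen.fac 12 2
   true, Gen.fac 3 4 true, Gen.fac 0 7 true, Gen.fac 2 1 true, Gen.fac 3 7 true, Gen.gp [4, 9, 10]
   2 3 5 7 false false true true, Gen.fac 22 8 true, Gen.gp [6, 7, 9] 1 3 4 10 false true true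
   true, Gen.gp [4, 6, 7] 2 3 10 11 false true false false, Gen.fac 25 1 false, Gen.fac 12 4 true,
   Gen.fac 24 9 true, Gen.gp [7, 9, 10] 1 3 6 11 false false true true, Gen.gp [3, 7, 11] 0 2 4 6
   false false false false, Gen.gp [2, 5, 9] 0 3 6 7 false false false true, Gen.fac 18 9 false,
   Gen.gp [3, 4, 9] 0 2 6 7 true false false false, Gen.gp [3, 4, 9] 0 2 7 10 true false false
   false, Gen.fac 11 7 false, Gen.gp [3, 6, 7] 1 9 10 11 true false false false, Gen.fac 4 4 true,
   Gen.fac 2 11 false, Gen.gp [2, 4, 7] 3 6 8 11 true false false true, Gen.fac 16 9 true, Gen.gp
   [3, 7, 9] 0 2 6 11 true true true true, Gen.fac 5 5 true, Gen.gp [0, 4, 9] 1 3 7 10 true true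
   true true, Gen.gp [3, 6, 7] 2 9 10 11 true false false false, Gen.fac 24 5 false, Gen.fac 13 2
   false, Gen.gp [4, 6, 7] 2 3 5 10 false true true true, Gen.fac 3 2 false, Gen.fac 20 9 true,
   Gen.gp [3, 7, 9] 0 4 6 10 true true true true, Gen.fac 4 0 false, Gen.fac 13 10 true, Gen.fac
   24 3 true]

/-- the derivation -/
def steps : List (Clause × List ℕ) :=
  [([(4661, true)], [139, 45]), ([(4667, true)], [140, 88]), ([(144507, false), (9035, false),
   (74619, true), (9083, true), (74571, true)], [0, 142]), ([(4665, true)], [142, 165]),
   ([(1048577, false)], [0, 53]), ([(4681, true)], [0, 8]), ([(4697, true)], [1, 61]), ([(4729,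
   true)], [2, 78]), ([(1048581, true)], [2, 150]), ([(1048582, true)], [2, 51]), ([(5241,
   false)], [1, 105]), ([(4937, true)], [2, 133]), ([(5274, true)], [3, 135]), ([(5225, false)],
   [4, 151]), ([(75162, true)], [4, 65]), ([(75113, false)], [5, 115]), ([(75129, false)], [6,
   117]), ([(74841, true)], [7, 124]), ([(74585, true)], [8, 128]), ([(75111, true), (75674,
   false), (75386, true), (75130, true), (75385, false)], [2, 182]), ([(4663, true)], [159, 186]),
   ([(1048578, false)], [17, 188]), ([(9081, true)], [0, 52]), ([(9033, true)], [1, 90]), ([(9114,
   false)], [2, 120]), ([(9049, true)], [3, 159]), ([(9065, true)], [4, 161]), ([(1048584,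
   false)], [4, 37]), ([(1048583, true)], [1, 161]), ([(13945, false)], [1, 64]), ([(14235,
   false)], [2, 133]), ([(14234, false)], [3, 149]), ([(4985, true)], [4, 153]), ([(13433,
   false)], [5, 162]), ([(145050, true)], [5, 50]), ([(144489, true)], [6, 62]), ([(144745,
   true)], [7, 118]), ([(145017, false)], [8, 131]), ([(9337, false)], [4, 32, 26, 27, 14, 198]),
   ([(9577, false)], [2, 32, 23, 13, 20, 148]), ([(153209, true), (144761, true), (9593, true)],
   [14, 0, 3, 218]), ([(214649, true), (13417, true), (144505, true)], [17, 7, 5, 221]),
   ([(214938, false), (144538, false), (13466, false), (144505, false)], [18, 8, 223]), ([(9115,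
   false)], [21, 228]), ([(223131, false), (145307, false)], [21, 14, 13, 6, 232]), ([(5209,
   false)], [36, 234]), ([(18330, true), (13466, true)], [34, 35, 33, 12, 236]), ([(223147, true),
   (145018, false), (223131, true), (145019, false), (223130, false)], [9, 238]), ([(1048579,
   true)], [46, 243]), ([(4971, false)], [0, 197]), ([(4939, false)], [1, 215]), ([(4987, false)],
   [2, 219]), ([(1048585, false)], [1, 182]), ([(1048588, true)], [1, 144]), ([(4683, false)], [1,
   115]), ([(5243, true)], [2, 145]), ([(14251, false)], [2, 89]), ([(13947, true)], [3, 126]),
   ([(9083, false)], [4, 222]), ([(13435, true)], [5, 233]), ([(223130, false), (214938, true),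
   (214649, false)], [26, 30, 28, 257]), ([(1048580, true)], [59, 259]), ([(74603, false)], [0,
   147]), ([(74619, false)], [1, 212]), ([(74571, false)], [2, 248]), ([(1048587, false)], [2,
   133]), ([(145067, true)], [0, 70]), ([(9067, false)], [1, 114]), ([(144491, false)], [2, 172]),
   ([(145019, true)], [3, 251]), ([(79483, true)], [0, 20, 2, 12, 7, 159]), ([(149387, false),
   (9031, true), (144507, false)], [7, 12, 6, 20, 16, 15, 11, 68, 94, 80, 163, 226, 77]), ([(9031,
   true), (144507, false)], [8, 13, 7, 21, 17, 16, 12, 69, 95, 0, 169, 92, 104, 224]), ([(149402,
   true), (144505, true), (9031, false)], [34, 113, 214, 273, 135]), ([(144505, true), (9031,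
   false)], [35, 0, 249, 118, 133, 180]), ([(214938, false), (144505, false)], [155, 154, 192,
   32]), ([(144505, false)], [42, 53, 44, 51, 0, 114, 112, 100, 203, 132]), ([(9031, false)], [0,
   2]), ([(144507, false)], [0, 5]), ([(214651, false)], [0, 19, 20, 21, 9, 256]), ([(145307,
   true)], [1, 57, 2, 21, 3, 80]), ([(144487, false)], [0, 4, 11, 2, 43, 127]), ([(74617, true)],
   [1, 61, 59, 23, 18, 180]), ([(223131, false)], [2, 38]), ([(79481, false)], [1, 61, 51, 54, 46,
   227]), ([(74873, false)], [2, 77, 62, 46, 8, 104]), ([(83321, true)], [0, 80, 40, 75, 68,
   211]), ([(214938, true), (145306, false)], [55, 62, 125, 111, 214, 143]), ([(145306, false)],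
   [56, 63, 0, 168, 167, 205, 131]), ([(79770, false)], [6, 66, 56, 57, 0, 142]), ([(227755,
   false)], [1, 67, 58, 59, 9, 154]), ([(145835, false)], [2, 66, 68, 47, 10, 154]), ([(1048600,
   true), (288683, false)], [13, 12, 10, 194, 203, 284, 220, 121, 99, 189, 247, 236, 278, 291,
   264, 142, 285, 286]), ([(214938, false), (1048600, false)], [58, 22, 9, 8, 36, 34, 35, 23, 14,
   26, 24, 1, 4, 165, 239, 130, 171, 192, 127, 158, 293, 173, 210, 246, 230, 276, 179, 224, 219]),
   ([(1048600, false)], [5, 59, 81, 7, 8, 86, 79, 76, 77, 60, 83, 82, 80, 55, 56, 17, 166, 269,
   240, 115, 131, 146, 172, 112, 281, 0, 132, 106, 118, 221, 241, 267, 170, 263, 47, 164, 33, 255,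
   182, 52, 175, 151, 125, 187, 199, 209, 53]), ([(149402, true)], [0, 135]), ([(144506, true)],
   [1, 155]), ([(74874, false)], [2, 171]), ([(149386, true)], [3, 200]), ([(149114, false)], [4,
   210]), ([(148858, false)], [5, 292]), ([(288683, false)], [6, 8]), ([(1048596, true)], [3,
   230]), ([(1048593, false)], [2, 132]), ([(149112, true)], [1, 111]), ([(144504, false)], [2,
   260]), ([(149385, true)], [3, 302]), ([(83322, false)], [3, 108]), ([(284570, true)], [4,
   149]), ([(284282, false)], [5, 253]), ([(149113, true)], [3, 4, 28, 33, 5, 136]), ([(1048592,
   false)], [1, 113]), ([(1048589, false)], [2, 311]), ([(354202, true)], [1, 124]), ([(22138,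
   false)], [2, 139]), ([(218746, false)], [3, 154]), ([(354219, false)], [4, 176]), ([(87674,
   false)], [5, 225]), ([(153210, false)], [6, 274]), ([(214375, false)], [6, 169]), ([(284281,
   false)], [7, 236]), ([(148839, false)], [8, 314]), ([(1048598, true)], [7, 127]), ([(1048599,
   true)], [5, 235]), ([(288666, true)], [2, 13, 14, 24, 3, 172]), ([(214650, false)], [3, 15, 5,
   25, 43, 319]), ([(9578, false)], [3, 134]), ([(22170, false)], [4, 193]), ([(13674, false)],
   [5, 279]), ([(22154, false)], [6, 299]), ([(92058, false)], [6, 147]), ([(83578, false)], [7,
   244]), ([(75386, false)], [8, 289]), ([(1048594, false)], [3, 146]), ([(75130, false)], [2, 36,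
   16, 1, 26, 162]), ([(13672, true)], [1, 267]), ([(9576, true)], [2, 286]), ([(22153, false)],
   [3, 316]), ([(214938, true), (293291, false), (424363, false)], [49, 103, 125, 48, 47, 13, 7,
   176, 150, 162, 265, 311, 214, 91, 208, 314, 192]), ([(293291, false), (424363, false)], [123,
   99, 20, 12, 6, 4, 138, 113, 132, 101, 102, 104, 56, 50, 2, 1, 3, 11, 39, 43, 41, 112, 42, 10,
   23, 69, 55, 107, 48, 82, 13, 59, 8, 54, 14, 52, 30, 18, 49, 109, 0, 219, 256, 292, 276, 293,
   315, 193, 197, 310, 223, 284, 91, 153, 275, 259, 258, 154, 212, 161, 297, 214, 119, 216, 263]),
   ([(223147, true), (223130, false)], [110, 83, 49, 108, 56, 70, 24, 11, 43, 113, 42, 44, 40, 12,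
   4, 2, 3, 51, 57, 105, 103, 102, 133, 114, 139, 5, 7, 13, 21, 100, 124, 294, 285, 92, 154, 276,
   260, 259, 155, 213, 162, 298, 215, 120, 217, 264]), ([(223147, false), (424363, false)], [71,
   83, 39, 50, 62, 84, 82, 81, 1, 227, 224, 300]), ([(214938, false), (223130, true)], [53, 107,
   222, 259, 295, 279]), ([(223130, true)], [54, 108, 0, 181, 155, 167, 219]), ([(223147, true)],
   [0, 3]), ([(424363, true)], [0, 29, 28, 1, 31, 259]), ([], [1, 0, 4])]

/-- the clauses -/
def cls : List Clause :=
  [[(9031, true), (145307, true), (9081, false), (144507, true), (9083, true), (144505, true)],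
   [(1048593, true), (83322, false)], [(1048592, false), (284282, true)], [(1048577, true), (4681,
   true)], [(1048587, true), (145067, true)], [(1048598, true), (22138, true)], [(9031, true),
   (149387, false), (9336, false), (144507, false), (9339, false), (144504, true)], [(1048596,
   false), (149112, true)], [(1048598, false), (9578, false)], [(1048596, true), (149387, false)],
   [(1048584, false), (9081, false)], [(1048592, true), (354202, true)], [(1048601, true),
   (214682, false)], [(1048594, false), (22154, true)], [(13674, true), (223130, false), (13946,
   true), (218778, true), (13978, false), (218746, true)], [(9577, true), (218778, false), (13673,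
   false), (153242, false), (22170, true), (144745, false)], [(1048583, false), (145050, true)],
   [(1048599, false), (92058, false)], [(1048589, false), (284281, true)], [(4729, false),
   (144505, true), (9081, false), (74873, false), (9337, true), (74617, false)], [(1048596, true),
   (9336, false)], [(1048593, false), (284570, false)], [(74617, false), (157594, true), (75385,
   true), (145306, true), (75674, false), (145017, true)], [(4683, true), (13435, false), (4939,
   true), (9339, true), (5243, false), (9035, true)], [(1048601, true), (144538, false)],
   [(1048592, true), (22138, false)], [(144487, true), (149385, false), (144504, true), (149113,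
   true), (144505, true), (149112, false)], [(1048583, false), (144489, true)], [(74874, true),
   (87674, true), (75130, false), (83578, true), (75386, true), (83322, true)], [(1048593, false),
   (148858, true)], [(1048578, true), (9081, true)], [(4937, false), (18041, true), (5225, true),
   (13433, true), (5241, true), (13417, false)], [(1048596, true), (144504, true)], [(1048588,
   false), (14251, false)], [(1048599, false), (87674, false)], [(1048584, true), (13945, false)],
   [(9081, false), (214938, true), (13433, true), (145306, true), (14234, true), (144505, false)],
   [(1048593, false), (284282, true)], [(1048601, false), (214938, true)], [(1048592, true),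
   (218746, false)], [(1048600, true), (149402, true)], [(1048593, true), (284570, true)],
   [(1048582, true), (4697, false)], [(9114, true), (214938, false), (13466, false), (145306,
   false), (14234, true), (144538, false)], [(1048600, true), (9338, false)], [(1048576, false),
   (4661, true)], [(144487, false), (145307, false), (144505, true), (145019, false), (144507,
   true), (145017, true)], [(1048587, true), (9067, false)], [(148839, true), (288666, true),
   (149113, false), (284282, true), (149114, true), (284281, true)], [(1048577, false), (4665,
   false)], [(1048589, true), (214375, false)], [(1048582, false), (75162, true)], [(1048589,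
   true), (284282, false)], [(4985, false), (145306, true), (9081, false), (79770, false), (14234,
   true), (74617, false)], [(83866, false), (424363, false), (92058, true), (293291, false),
   (96683, false), (288666, false)], [(1048577, true), (4697, true)], [(9114, true), (214938,
   true), (13466, true), (145306, false), (14234, true), (144538, true)], [(74841, false),
   (153498, true), (75129, true), (148890, true), (75162, false), (148857, true)], [(83321,
   false), (288666, false), (83577, true), (284570, false), (83866, true), (284281, true)],
   [(1048600, true), (144506, true)], [(1048592, true), (354219, false)], [(1048585, true), (4683,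
   false)], [(9031, false), (149402, true), (9337, true), (144506, true), (9338, false), (144505,
   true)], [(9081, false), (145835, false), (9114, true), (145307, false), (9115, true), (145306,
   true)], [(9081, false), (227755, false), (14234, true), (145307, false), (14235, true),
   (145306, true)], [(1048599, true), (79482, true)], [(1048598, false), (22170, false)],
   [(1048578, true), (9033, true)], [(1048587, false), (74603, true)], [(1048588, false), (13947,
   true)], [(5274, false), (214938, true), (13466, true), (83866, true), (18330, false), (79002,
   true)], [(1048577, true), (4729, true)], [(1048600, false), (148858, true)], [(9046, false),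
   (22153, true), (9576, false), (13673, false), (9577, true), (13672, false)], [(1048600, true),
   (74874, false)], [(4661, false), (9577, true), (4694, false), (9049, false), (4697, false),
   (9046, true)], [(144538, true), (223130, true), (145050, false), (214938, true), (145306,
   true), (214682, true)], [(9575, false), (153242, true), (9577, true), (153210, true), (9578,
   true), (153209, false)], [(1048592, true), (284282, false)], [(1048601, false), (13466, true)],
   [(1048601, true), (214938, false)], [(4729, false), (148857, true), (9337, true), (75129,
   true), (9593, false), (74873, true)], [(1048583, false), (144745, true)], [(214955, false),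
   (424363, false), (223147, false), (293291, true), (227755, true), (288683, true)], [(214649,
   true), (223147, false), (214650, true), (223131, true), (214651, true), (223130, false)],
   [(1048580, false), (74603, false)], [(9083, true), (223147, false), (13947, false), (145323,
   false), (14251, true), (145019, false)], [(1048576, false), (4667, true)], [(74873, true),
   (284570, true), (83321, false), (149402, true), (83866, false), (148857, false)], [(4971,
   true), (145019, false), (9067, true), (79483, true), (13947, false), (74603, true)], [(1048585,
   true), (5243, true)], [(1048588, true), (4987, true)], [(1048596, false), (9336, true)],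
   [(148857, true), (354202, true), (153209, false), (284570, true), (153498, false), (284281,
   false)], [(1048583, false), (145017, false)], [(1048581, false), (5241, false)], [(1048578,
   true), (9114, false)], [(1048596, false), (149387, true)], [(4663, false), (145307, false),
   (9081, false), (74619, true), (9083, true), (74617, true)], [(1048592, false), (87674, true)],
   [(1048582, false), (75113, false)], [(1048582, false), (75129, false)], [(1048600, true),
   (149386, true)], [(1048584, true), (14235, false)], [(1048587, true), (144491, false)], [(9337,
   true), (284281, false), (17785, false), (149113, false), (18041, false), (148857, true)],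
   [(9031, false), (149402, false), (9337, true), (144506, false), (9338, true), (144505, true)],
   [(1048582, false), (74841, true)], [(1048592, true), (87674, false)], [(4697, false), (144745,
   false), (9049, false), (75113, true), (9577, false), (74585, false)], [(1048582, false),
   (74585, true)], [(1048600, true), (149114, false)], [(1048599, true), (87674, true)],
   [(1048599, false), (83578, false)], [(218746, true), (424363, true), (223130, false), (354219,
   true), (223147, false), (354202, false)], [(144505, true), (153209, true), (144761, false),
   (149113, true), (145017, true), (148857, true)], [(1048589, true), (284281, false)], [(1048601,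
   false), (144538, true)], [(1048584, true), (14234, false)], [(74874, true), (157594, true),
   (75386, true), (149402, false), (75674, true), (149114, true)], [(9065, false), (218778,
   false), (13673, true), (145050, false), (13978, false), (144745, false)], [(1048584, true),
   (4985, true)], [(1048581, false), (4937, true)], [(1048581, false), (5274, true)], [(4694,
   true), (153209, false), (9575, true), (75113, true), (9577, true), (75111, false)], [(4681,
   false), (83321, true), (5209, true), (74873, true), (5241, true), (74841, false)], [(144506,
   true), (145835, true), (144538, false), (145323, true), (144555, true), (145306, true)],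
   [(1048601, true), (13466, false)], [(1048596, true), (149386, false)], [(1048584, true),
   (13433, false)], [(1048585, false), (4939, true)], [(144491, true), (145323, true), (144507,
   true), (145067, false), (144555, false), (145019, false)], [(1048594, true), (13672, true)],
   [(1048583, true), (9065, false)], [(1048578, true), (9049, true)], [(1048578, true), (9065,
   true)], [(144506, false), (157594, false), (145018, true), (149402, false), (145306, true),
   (149114, true)], [(144538, false), (223130, true), (145050, false), (214938, false), (145306,
   true), (214682, false)], [(1048581, false), (5225, false)], [(1048576, true)], [(4667, false),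
   (144507, false), (9035, false), (74619, true), (9083, true), (74571, true)], [(1048600, false),
   (9338, true)], [(1048581, true), (4681, false)], [(4985, false), (145017, true), (9081, false),
   (79481, false), (13945, true), (74617, false)], [(1048593, true), (284282, false)], [(13946,
   false), (227755, true), (14234, true), (223147, true), (14251, true), (223130, false)],
   [(1048593, true), (148858, false)], [(1048601, true), (214426, false)], [(1048579, false),
   (4971, false)], [(1048580, false), (74619, false)], [(1048594, true), (9576, true)], [(1048598,
   false), (13674, false)], [(9031, true), (149387, true), (9336, true), (144507, false), (9339,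
   false), (144504, false)], [(1048601, false), (214682, true)], [(9065, false), (223130, false),
   (13945, true), (145050, false), (13978, true), (145017, true)], [(1048596, false), (144504,
   false)], [(1048592, true), (153210, false)], [(1048599, false), (75386, false)], [(144745,
   false), (157594, true), (145017, true), (153242, true), (145050, false), (153209, true)],
   [(9083, true), (214955, true), (13435, false), (145323, true), (14251, true), (144507, true)],
   [(4681, false), (13433, true), (4937, false), (9337, false), (5241, true), (9033, false)],
   [(5241, true), (284570, true), (17785, true), (83866, false), (18330, false), (83321, false)],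
   [(1048576, false), (4665, true)], [(75111, true), (75674, false), (75129, true), (75386, true),
   (75130, true), (75385, false)], [(1048588, false), (9083, false)], [(1048579, false), (4939,
   false)], [(1048576, false), (4663, true)], [(1048578, false), (4665, false)], [(1048579,
   false), (4987, false)], [(144538, true), (284570, true), (148890, false), (214938, true),
   (149402, true), (214426, true)], [(1048598, false), (22154, false)], [(79481, true), (288666,
   false), (83577, false), (223130, false), (92058, true), (214649, false)], [(144487, true),
   (288683, false), (149114, true), (214651, true), (149115, false), (214650, true)], [(1048601,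
   true), (79002, false)], [(1048588, false), (13435, true)], [(1048600, false), (149402, false)],
   [(79770, true), (424363, false), (92058, true), (227755, true), (96683, true), (223130,
   false)], [(9083, true), (214651, false), (13435, false), (145019, false), (13947, false),
   (144507, true)], [(9049, false), (153209, true), (9577, true), (144761, true), (9593, true),
   (144745, false)], [(1048594, true), (22153, false)], [(9033, false), (214649, true), (13417,
   true), (144505, true), (13433, true), (144489, false)], [(9033, false), (214938, false),
   (13433, true), (144538, false), (13466, false), (144505, false)], [(1048587, true), (145019,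
   true)], [(79481, true), (223147, true), (79482, false), (223131, true), (79483, false),
   (223130, false)], [(1048580, false), (74571, false)], [(1048578, true), (9115, false)],
   [(144487, true), (149387, false), (144504, true), (149115, true), (144507, true), (149112,
   false)], [(1048592, false), (354202, false)], [(9081, false), (223131, false), (13945, true),
   (145307, false), (14235, true), (145017, true)], [(1048581, false), (5209, false)], [(4937,
   false), (18330, true), (5241, true), (13466, true), (5274, false), (13433, true)], [(145017,
   true), (223147, true), (145018, false), (223131, true), (145019, false), (223130, false)],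
   [(1048600, true), (148858, false)], [(1048589, true), (148839, false)], [(144487, true),
   (284282, true), (148839, true), (214650, false), (149114, true), (214375, true)], [(1048579,
   true), (4667, false)], [(1048596, false), (149385, true)], [(13433, true), (223130, false),
   (13945, true), (214938, true), (14234, true), (214649, false)], [(1048580, true), (4667,
   false)], [(1048589, false), (284282, true)], [(1048600, false), (144506, false)]]

lemma gens_ok : gens.all (genOk 12 5 facets) = true := by decide +kernel

lemma cls_ok : gens.map (toClause 5 facets) = cls := by decide +kernel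

lemma steps_ok : refute cls steps = true := by decide +kernel

end Pool.Agent.R180.MW.CertR
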